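import Pool.Agent.Lib.MP_5e7226_co.MB.E

set_option autoImplicit false

open Pool.Agent.Lib.MP_5e7226_co
open scoped InnerProductSpace

namespace Pool.Agent.Results.MP_5e7226_co.LargeAsymmetry

/-- `-(K - c) ⊆ σ (K - c)` for some point `c`: the Minkowski asymmetry of `K` is at most `σ`. -/
def AsymmetryLE {d : ℕ} (K : Set (EuclideanSpace ℝ (Fin d))) (σ : ℝ) : Prop :=
  ∃ c, ∀ x ∈ K, ∃ y ∈ K, c - x = σ • (y - c)

/-- `s(K, o) ≤ n`: some `n` hyperplanes strictly separate every face of `K` from `o`. -/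
def SeparatedBy {d : ℕ} (K : Set (EuclideanSpace ℝ (Fin d))) (o : EuclideanSpace ℝ (Fin d))
    (n : ℕ) : Prop :=
  ∃ w : Fin n → EuclideanSpace ℝ (Fin d), ∃ b : Fin n → ℝ,
    ∀ u x₀ : EuclideanSpace ℝ (Fin d), u ≠ 0 → x₀ ∈ K →
      (∀ y ∈ K, ⟪u, y⟫_ℝ ≤ ⟪u, x₀⟫_ℝ) →
        ∃ i, ⟪w i, o⟫_ℝ < b i ∧ ∀ x ∈ K, ⟪u, x⟫_ℝ = ⟪u, x₀⟫_ℝ → b i < ⟪w i, x⟫_ℝ

/-- `I(K) ≤ n`: some `n` points outside `K` illuminate every boundary point `q` of `K`: the
half-line from one of them through `q` meets the interior of `K` at a point beyond `q`. -/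
def IlluminatedBy {d : ℕ} (K : Set (EuclideanSpace ℝ (Fin d))) (n : ℕ) : Prop :=
  ∃ p : Fin n → EuclideanSpace ℝ (Fin d), (∀ i, p i ∉ K) ∧
    ∀ q ∈ frontier K, ∃ i, ∃ s : ℝ, 0 < s ∧ q + s • (q - p i) ∈ interior K

/-- The points `x i` of `K` with the weights `w i` have the barycentre `o`, and the weighted mean of
the gauges of `o - x i` with respect to `K - o` is larger than `σ`. -/
def FarBarycentre {d : ℕ} (K : Set (EuclideanSpace ℝ (Fin d))) (o : EuclideanSpace ℝ (Fin d))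
    (σ : ℝ) : Prop :=
  ∃ (n : ℕ) (x : Fin n → EuclideanSpace ℝ (Fin d)) (w g : Fin n → ℝ), (∀ i, x i ∈ K) ∧
    (∀ i, 0 ≤ w i) ∧ ∑ i, w i = 1 ∧ ∑ i, w i • x i = o ∧
    (∀ i, ∀ t : ℝ, o + t • (o - x i) ∈ K → t * g i ≤ 1) ∧ σ < ∑ i, w i * g i

/-- Let `d ≥ 2`, `κ ≤ d / 3` and `K` a convex body in `E^d` whose asymmetry is larger than `d - κ`.
Then `I(K) ≤ d + 1` if `κ ≤ 1`, `I(K) ≤ 2 ^ d - 1` if `κ ≤ d / 40`, and
`I(K) ≤ (10 d / κ) ^ (4 κ + 2)` if `κ ≥ 1`. The same bounds hold for `s(K, o)` if, instead, the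
interior point `o` of `K` is the barycentre of finitely many weighted points `x` of `K` such that the
mean gauge of `o - x` is larger than `d - κ`. -/
theorem result {d : ℕ} (hd : 2 ≤ d) (K : Set (EuclideanSpace ℝ (Fin d))) (hc : Convex ℝ K)
    (hK : IsCompact K) (hne : (interior K).Nonempty) {κ : ℝ} (hκ : κ ≤ d / 3) :
    (¬ AsymmetryLE K (d - κ) →
      (κ ≤ 1 → IlluminatedBy K (d + 1)) ∧ (κ ≤ d / 40 → IlluminatedBy K (2 ^ d - 1)) ∧
      (1 ≤ κ → ∃ n : ℕ, (n : ℝ) ≤ (10 * d / κ) ^ (4 * κ + 2) ∧ IlluminatedBy K n)) ∧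
    (∀ o ∈ interior K, FarBarycentre K o (d - κ) →
      (κ ≤ 1 → SeparatedBy K o (d + 1)) ∧ (κ ≤ d / 40 → SeparatedBy K o (2 ^ d - 1)) ∧
      (1 ≤ κ → ∃ n : ℕ, (n : ℝ) ≤ (10 * d / κ) ^ (4 * κ + 2) ∧ SeparatedBy K o n)) := by
  have hd0 : (2 : ℝ) ≤ d := by exact_mod_cast hd
  refine ⟨fun h => ⟨fun h1 => ?_, fun h1 => ?_, fun h1 => ?_⟩,
    fun o ho h => ⟨fun h1 => ?_, fun h1 => ?_, fun h1 => ?_⟩⟩
  · exact MA.illuminated hd hc hK hne fun h2 =>
      h (MB.asym_mono hc (by linarith) (by linarith) h2)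
  · exact MB.illuminated_two_pow hc hK hne hd fun h2 =>
      h (MB.asym_mono hc (by linarith) (by linarith) h2)
  · exact MB.illuminated_general hc hK hne (by omega) h1 (by linarith) h
  all_goals obtain ⟨n, x, w, g, a1, a2, a3, a4, a5, a6⟩ := h
  all_goals have h2 := MA.pol_asym hc hK ho x w g a1 a2 a3 a4 a5 (by linarith) a6
  · exact MA.separated hd ho fun h3 =>
      h2 (MB.asym_mono (AB.pol_convex K o) (by linarith) (by linarith) h3)
  · exact MB.separated_two_pow hK ho hd fun h3 =>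
      h2 (MB.asym_mono (AB.pol_convex K o) (by linarith) (by linarith) h3)
  · exact MB.separated_general hK ho (by omega) h1 (by linarith) h2

end Pool.Agent.Results.MP_5e7226_co.LargeAsymmetry
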