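import Pool.Agent.Lib.MP_5e7226_co.NF.H1
import Pool.Agent.Lib.MP_5e7226_co.TH.F5

/-!
# Convex bodies without flat directions

Let `K` be a convex body in `E^d` (no symmetry is assumed), `o` an interior point of `K`, `P` the
polar body of `K - o` and `h` the support function of `K - o`. We prove `s(K, o) ≤ 2^(d - 1)` for
all `d ≥ 40` unless `P` has flat directions at many points:

* some `x ∈ K` has the mean of `⟨x - o, v⟩²` over `v ∈ P` greater than `1 / (250 ln d)²`,
* the thickness `T` of `(K, o)`, the mean of `⟨∇h(u), v⟩²` over `u, v ∈ P`, is at least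
  `1 / (300000 (ln d)^4)`, and
* `|⟨∇h(u), v⟩| ≥ 1 / 6` with probability at least `d^(-20)` over `u, v ∈ P`.

So there is no counterexample `K` if `P` is isotropic (the mean of `⟨x, v⟩²` over `P` is `σ² |x|²`)
and contains the ball with radius `250 σ ln d` about `0`. Dually, `I(C) ≤ 2^(d - 1)` for every
isotropic convex body `C` which contains a ball with radius `250 ln d` standard deviations about its
centroid (every isotropic convex body contains such a ball with radius one standard deviation).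

If every subspace invariant under the linear symmetries of `K - o` has dimension at least `r`, then
`s(K, o) ≤ 2^(d - 1)` if the distance from `K - o` to the ellipsoids centred at `0` is at most
`√r / (250 ln d)`; for unconditional `K - o` if it is at most `c √d / (ln d)^4`.

Idea of the proof. The faces of `K` correspond to the unit sphere of `h`, and a hyperplane serves
the faces in a translate of the interior of `P`. If for a finite `R ⊆ P` every translate of
`λ P` (`λ` slightly less than `1`) contains at most a fraction `e^L (λ / (1 + λ))^d` of `R` (tight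
sets), then the distribution of `x + λ u`, `x ∈ R` and `u ∈ P` random, has a density with small
`L²` norm: as functions of `t`, the numbers of points of `R` in `t + λ P` and in `t - λ P` have the
same `L²` norm. Hence for a linear functional `f` with small second moment on `P` (its tails on `P`
decrease exponentially by the Brunn-Minkowski inequality) few points `x ∈ R` have a large value:
otherwise the `x + λ u` with `f(u)` not very negative would have too much mass in the small set of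
the `w ∈ (1 + λ) P` where `f` is large. On the other hand `h(x + λ u) ≥ (1 + λ) (1 - s / d)` for
most `x ∈ R` and `u ∈ P`, `s = L + 1`, so that `h(w) ≥ 1 + t / 2` for `w = u + t x`, `t ≈ 4 s / d`,
and `⟨∇h(w), x⟩ ≥ 1 / 2`. The distribution of `w` has a density at most `e^(4 s)` with respect to the
uniform one, so there are many `w` for which many `x ∈ R` have a large value of `∇h(w)`.
-/

set_option autoImplicit false

open Filter Topology MeasureTheory Module
open scoped InnerProductSpace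

namespace Pool.Agent.Results.MP_5e7226_co.NoFlatDirections

/-- `K` is a convex body in `E^d` and `o` is an interior point of `K`. -/
def BodyAt {d : ℕ} (K : Set (EuclideanSpace ℝ (Fin d))) (o : EuclideanSpace ℝ (Fin d)) : Prop :=
  Convex ℝ K ∧ IsCompact K ∧ o ∈ interior K

/-- `s(K, o) ≤ r`: for some natural number `n ≤ r`, some `n` hyperplanes strictly separate every
face of `K` from `o`. A face is `{x ∈ K | ⟨u, x⟩ = ⟨u, x₀⟩}` where `u ≠ 0` and `x₀ ∈ K` maximizes
`⟨u, ·⟩` on `K`; the hyperplanes are `{x | ⟨w i, x⟩ = b i}`. -/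
def SepLE {d : ℕ} (K : Set (EuclideanSpace ℝ (Fin d))) (o : EuclideanSpace ℝ (Fin d))
    (r : ℝ) : Prop :=
  ∃ n : ℕ, (n : ℝ) ≤ r ∧ ∃ (w : Fin n → EuclideanSpace ℝ (Fin d)) (b : Fin n → ℝ),
    ∀ u x₀ : EuclideanSpace ℝ (Fin d), u ≠ 0 → x₀ ∈ K →
      (∀ y ∈ K, ⟪u, y⟫_ℝ ≤ ⟪u, x₀⟫_ℝ) →
        ∃ i, ⟪w i, o⟫_ℝ < b i ∧ ∀ x ∈ K, ⟪u, x⟫_ℝ = ⟪u, x₀⟫_ℝ → b i < ⟪w i, x⟫_ℝ

/-- `I(K) ≤ r`: for some natural number `n ≤ r`, some `n` exterior points illuminate every boundary
point of `K`. -/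
def IllLE {d : ℕ} (K : Set (EuclideanSpace ℝ (Fin d))) (r : ℝ) : Prop :=
  ∃ n : ℕ, (n : ℝ) ≤ r ∧ ∃ p : Fin n → EuclideanSpace ℝ (Fin d), (∀ i, p i ∉ K) ∧
    ∀ q ∈ frontier K, ∃ i, ∃ s : ℝ, 0 < s ∧ q + s • (q - p i) ∈ interior K

/-- The polar body `P` of `K - o`. -/
def polarSet {d : ℕ} (K : Set (EuclideanSpace ℝ (Fin d))) (o : EuclideanSpace ℝ (Fin d)) :
    Set (EuclideanSpace ℝ (Fin d)) :=
  {v | ∀ x ∈ K, ⟪v, x - o⟫_ℝ ≤ 1}

/-- The support function `h` of `K - o`. -/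
noncomputable def supp {d : ℕ} (K : Set (EuclideanSpace ℝ (Fin d)))
    (o v : EuclideanSpace ℝ (Fin d)) : ℝ :=
  sSup ((fun x => ⟪v, x - o⟫_ℝ) '' K)

/-- `B(L) = e^(-L) 2^d (d ln d + d ln ln d + 5 d) + 1`. -/
noncomputable def bound (d : ℕ) (L : ℝ) : ℝ :=
  Real.exp (-L) * (2 ^ d * (d * Real.log d + d * Real.log (Real.log d) + 5 * d)) + 1

/-- The thickness `T` of `(K, o)`: the mean over `u, v ∈ P` of the square of the derivative of `h`
at `u` in the direction `v`. -/
noncomputable def thickness {d : ℕ} (K : Set (EuclideanSpace ℝ (Fin d)))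
    (o : EuclideanSpace ℝ (Fin d)) : ℝ :=
  ⨍ u in polarSet K o, ⨍ v in polarSet K o, (fderiv ℝ (supp K o) u v) ^ 2

/-- `Θ`: the probability, over `u, v ∈ P`, that the derivative of `h` at `u` in the direction `v` is
at least `1 / 6` in absolute value. -/
noncomputable def bigDerivative {d : ℕ} (K : Set (EuclideanSpace ℝ (Fin d)))
    (o : EuclideanSpace ℝ (Fin d)) : ℝ :=
  ⨍ u in polarSet K o, ⨍ v in polarSet K o,
    {v | 1 / 6 ≤ |fderiv ℝ (supp K o) u v|}.indicator (fun _ => (1 : ℝ)) v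

/-- For some linear map `A`, `K - o` lies in the ellipsoid with support function `|A v|`, and the
mean of `|A v|²` over `P` is at most `Q`. -/
def OuterMean {d : ℕ} (K : Set (EuclideanSpace ℝ (Fin d))) (o : EuclideanSpace ℝ (Fin d))
    (Q : ℝ) : Prop :=
  ∃ A : EuclideanSpace ℝ (Fin d) →ₗ[ℝ] EuclideanSpace ℝ (Fin d),
    (∀ x ∈ K, ∀ v, ⟪v, x - o⟫_ℝ ≤ ‖A v‖) ∧ ⨍ v in polarSet K o, ‖A v‖ ^ 2 ≤ Q

/-- `K - o` lies between an ellipsoid `A(B)` and `D A(B)`, `B` the unit ball. -/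
def NearEllipsoid {d : ℕ} (K : Set (EuclideanSpace ℝ (Fin d))) (o : EuclideanSpace ℝ (Fin d))
    (D : ℝ) : Prop :=
  ∃ A : EuclideanSpace ℝ (Fin d) →ₗ[ℝ] EuclideanSpace ℝ (Fin d),
    (∀ b, ‖b‖ ≤ 1 → o + A b ∈ K) ∧ ∀ x ∈ K, ∃ b, ‖b‖ ≤ 1 ∧ x = o + D • A b

/-- Every nonzero linear subspace of `E^d` which is invariant under all linear symmetries of
`K - o` has dimension at least `r`. -/
def InvariantDim {d : ℕ} (K : Set (EuclideanSpace ℝ (Fin d))) (o : EuclideanSpace ℝ (Fin d))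
    (r : ℕ) : Prop :=
  ∀ V : Submodule ℝ (EuclideanSpace ℝ (Fin d)), V ≠ ⊥ →
    (∀ g : EuclideanSpace ℝ (Fin d) ≃ₗ[ℝ] EuclideanSpace ℝ (Fin d),
      (∀ x, o + x ∈ K ↔ o + g x ∈ K) → ∀ v ∈ V, g v ∈ V) → r ≤ finrank ℝ V

/-- `K - o` is unconditional: for some basis, it does not change if the sign of one coordinate is
changed. -/
def Unconditional {d : ℕ} (K : Set (EuclideanSpace ℝ (Fin d)))
    (o : EuclideanSpace ℝ (Fin d)) : Prop :=
  ∃ b : Basis (Fin d) ℝ (EuclideanSpace ℝ (Fin d)),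
    ∀ i x, o + x ∈ K → o + (x - (2 * b.coord i x) • b i) ∈ K

theorem result :
    -- no flat directions: separation
    (∀ d : ℕ, 2 ≤ d → ∀ (K : Set (EuclideanSpace ℝ (Fin d))) (o : EuclideanSpace ℝ (Fin d)),
      BodyAt K o → ∀ S : ℝ, (∀ x ∈ K, ⨍ v in polarSet K o, ⟪v, x - o⟫_ℝ ^ 2 ≤ S) →
        (∀ L : ℝ, 0 ≤ L → 5 * (L + 1) ≤ d → (110 * L + 160) ^ 2 * S ≤ 1 →
          SepLE K o (bound d L)) ∧
        (40 ≤ d → (250 * Real.log d) ^ 2 * S ≤ 1 → SepLE K o (2 ^ (d - 1)))) ∧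
    -- no flat directions: illumination
    (∀ d : ℕ, 2 ≤ d → ∀ (C : Set (EuclideanSpace ℝ (Fin d))) (c : EuclideanSpace ℝ (Fin d)),
      BodyAt C c → ∀ S : ℝ, (∀ y ∈ polarSet C c, ⨍ x in C, ⟪y, x - c⟫_ℝ ^ 2 ≤ S) →
        (∀ L : ℝ, 0 ≤ L → 5 * (L + 1) ≤ d → (110 * L + 160) ^ 2 * S ≤ 1 →
          IllLE C (bound d L)) ∧
        (40 ≤ d → (250 * Real.log d) ^ 2 * S ≤ 1 → IllLE C (2 ^ (d - 1)))) ∧
    -- many symmetries
    (∀ d : ℕ, 2 ≤ d → ∀ (K : Set (EuclideanSpace ℝ (Fin d))) (o : EuclideanSpace ℝ (Fin d)),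
      BodyAt K o → ∀ r : ℕ, 0 < r → InvariantDim K o r → ∀ Q : ℝ, OuterMean K o Q →
        (∀ L : ℝ, 0 ≤ L → 5 * (L + 1) ≤ d → (110 * L + 160) ^ 2 * Q ≤ r →
          SepLE K o (bound d L)) ∧
        (40 ≤ d → (250 * Real.log d) ^ 2 * Q ≤ r → SepLE K o (2 ^ (d - 1)))) ∧
    -- bodies between two homothetic ellipsoids
    (∀ d : ℕ, ∀ (K : Set (EuclideanSpace ℝ (Fin d))) (o : EuclideanSpace ℝ (Fin d)),
      BodyAt K o → ∀ D : ℝ, NearEllipsoid K o D → OuterMean K o (D ^ 2)) ∧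
    -- small thickness
    (∀ d : ℕ, 2 ≤ d → ∀ (K : Set (EuclideanSpace ℝ (Fin d))) (o : EuclideanSpace ℝ (Fin d)),
      BodyAt K o →
        (∀ L : ℝ, 0 ≤ L → 5 * (L + 1) ≤ d → 3600 * (L + 4) ^ 4 * thickness K o < 1 →
          SepLE K o (bound d L)) ∧
        (40 ≤ d → 3 * 10 ^ 5 * Real.log d ^ 4 * thickness K o < 1 → SepLE K o (2 ^ (d - 1)))) ∧
    -- few large derivatives
    (∀ d : ℕ, 2 ≤ d → ∀ (K : Set (EuclideanSpace ℝ (Fin d))) (o : EuclideanSpace ℝ (Fin d)),
      BodyAt K o →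
        (∀ L : ℝ, 0 ≤ L → 5 * (L + 1) ≤ d → Real.exp (9 * L + 12) * bigDerivative K o ≤ 1 →
          SepLE K o (bound d L)) ∧
        (40 ≤ d → d ^ 20 * bigDerivative K o ≤ 1 → SepLE K o (2 ^ (d - 1)))) ∧
    -- unconditional bodies
    (∀ d : ℕ, 40 ≤ d → ∀ (K : Set (EuclideanSpace ℝ (Fin d))) (o : EuclideanSpace ℝ (Fin d)),
      BodyAt K o → Unconditional K o → ∀ Q : ℝ, OuterMean K o Q →
        d * thickness K o ^ 2 ≤ 72 * Q ∧
        (10 ^ 13 * Real.log d ^ 8 * Q < d → SepLE K o (2 ^ (d - 1)))) := by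
  have hB : ∀ (d : ℕ) (K : Set (EuclideanSpace ℝ (Fin d))) (o : EuclideanSpace ℝ (Fin d)),
      BodyAt K o → Lib.MP_5e7226_co.NF.Body K o := fun d K o h => ⟨h.2.1, h.2.2⟩
  have hflat : ∀ d : ℕ, 2 ≤ d → ∀ (K : Set (EuclideanSpace ℝ (Fin d)))
      (o : EuclideanSpace ℝ (Fin d)),
      BodyAt K o → ∀ S : ℝ, (∀ x ∈ K, ⨍ v in polarSet K o, ⟪v, x - o⟫_ℝ ^ 2 ≤ S) →
        (∀ L : ℝ, 0 ≤ L → 5 * (L + 1) ≤ d → (110 * L + 160) ^ 2 * S ≤ 1 →
          SepLE K o (bound d L)) ∧
        (40 ≤ d → (250 * Real.log d) ^ 2 * S ≤ 1 → SepLE K o (2 ^ (d - 1))) := by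
    intro d hd K o hK S hS
    refine ⟨fun L hL hLd hSL => ?_, fun hd40 hSd => ?_⟩
    · exact (Lib.MP_5e7226_co.NF.cov_flat hd (hB d K o hK) hL hLd hS hSL).sep hK.2.2
    · exact (Lib.MP_5e7226_co.NF.half_flat hd40 (hB d K o hK) hS hSd).sep hK.2.2
  have hthin : ∀ d : ℕ, 40 ≤ d → ∀ (K : Set (EuclideanSpace ℝ (Fin d)))
      (o : EuclideanSpace ℝ (Fin d)), BodyAt K o →
        3 * 10 ^ 5 * Real.log d ^ 4 * thickness K o < 1 → SepLE K o (2 ^ (d - 1)) :=
    fun d hd K o hK hT => (Lib.MP_5e7226_co.NF.half_thin hd (hB d K o hK) hT).sep hK.2.2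
  refine ⟨hflat, ?_, ?_, ?_, ?_, ?_, ?_⟩
  · intro d hd C c hC S hS
    obtain ⟨h1, h2⟩ := Lib.MP_5e7226_co.NF.ill_flat hd hC.1 hC.2.1 hC.2.2 hS
    exact ⟨fun L hL hLd hSL => (h1 L hL hLd hSL).ill (by omega) hC.1 hC.2.1 hC.2.2,
      fun hd40 hSd => (h2 hd40 hSd).ill (by omega) hC.1 hC.2.1 hC.2.2⟩
  · intro d hd K o hK r hr0 hr Q hQ
    have hr1 : (0 : ℝ) < r := by exact_mod_cast hr0
    obtain ⟨A, hA, hAQ⟩ := hQ
    have hS : ∀ x ∈ K, ⨍ v in polarSet K o, ⟪v, x - o⟫_ℝ ^ 2 ≤ Q / r := by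
      intro x hx
      rw [le_div_iff₀ hr1, mul_comm]
      exact Lib.MP_5e7226_co.NF.sym_bound (by omega) (hB d K o hK) hr A hA hAQ x hx
    obtain ⟨h1, h2⟩ := hflat d hd K o hK _ hS
    refine ⟨fun L hL hLd hSL => h1 L hL hLd ?_, fun hd40 hSd => h2 hd40 ?_⟩
    · rw [← mul_div_assoc, div_le_one hr1]
      exact hSL
    · rw [← mul_div_assoc, div_le_one hr1]
      exact hSd
  · intro d K o hK D hD
    obtain ⟨A, hA1, hA2⟩ := hD
    exact Lib.MP_5e7226_co.NF.near_outer (hB d K o hK) A hA1 hA2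
  · intro d hd K o hK
    exact ⟨fun L hL hLd hT => (Lib.MP_5e7226_co.NF.cov_thin hd (hB d K o hK) hL hLd hT).sep hK.2.2,
      fun hd40 hT => hthin d hd40 K o hK hT⟩
  · intro d hd K o hK
    exact ⟨fun L hL hLd hT => (Lib.MP_5e7226_co.NF.cov_theta hd (hB d K o hK) hL hLd hT).sep hK.2.2,
      fun hd40 hT => (Lib.MP_5e7226_co.NF.half_theta hd40 (hB d K o hK) hT).sep hK.2.2⟩
  · intro d hd K o hK hU Q hQ
    obtain ⟨A, hA, hAQ⟩ := hQ
    obtain ⟨b, hb⟩ := hU
    -- unconditional bodies are symmetric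
    have hsym : ∀ x ∈ K, (2 : ℝ) • o - x ∈ K := by
      intro x hx
      have key : ∀ s : Finset (Fin d), o + ((x - o) - ∑ i ∈ s, (2 * b.coord i (x - o)) • b i) ∈ K := by
        intro s
        classical
        induction s using Finset.induction_on with
        | empty =>
          rw [Finset.sum_empty, sub_zero, add_sub_cancel]
          exact hx
        | insert i s hi ih =>
          have h1 := hb i _ ih
          have h2 : b.coord i ((x - o) - ∑ j ∈ s, (2 * b.coord j (x - o)) • b j) =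
              b.coord i (x - o) := by
            rw [map_sub, map_sum]
            have h3 : ∑ j ∈ s, b.coord i ((2 * b.coord j (x - o)) • b j) = 0 := by
              refine Finset.sum_eq_zero fun j hj => ?_
              have hji : j ≠ i := fun h => hi (h ▸ hj)
              have h4 : b.coord i (b j) = 0 := by
                rw [Basis.coord_apply, Basis.repr_self, Finsupp.single_eq_of_ne hji.symm]
              rw [map_smul, h4, smul_zero]
            rw [h3, sub_zero]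
          rw [h2] at h1
          rw [Finset.sum_insert hi]
          convert h1 using 2
          abel
      have h1 := key Finset.univ
      have h2 : ∑ i, (2 * b.coord i (x - o)) • b i = (2 : ℝ) • (x - o) := by
        conv_rhs => rw [← b.sum_repr (x - o)]
        rw [Finset.smul_sum]
        refine Finset.sum_congr rfl fun i _ => ?_
        rw [smul_smul]
        rfl
      rw [h2] at h1
      convert h1 using 1
      rw [smul_sub, two_smul, two_smul]
      abel
    have h1 : thickness K o ^ 2 * d ≤ 72 * Q :=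
      (Lib.MP_5e7226_co.TH.body_unc (by omega) hK.2.1 hK.2.2 hsym b hb A hA).trans
        (mul_le_mul_of_nonneg_left hAQ (by norm_num))
    refine ⟨by linarith, fun hlt => hthin d hd K o hK ?_⟩
    have hd1 : (0 : ℝ) < d := by
      have : 0 < d := by omega
      exact_mod_cast this
    by_contra hcon
    push Not at hcon
    set l := Real.log d ^ 4 with hl
    have hl0 : 0 ≤ l := by positivity
    have hl8 : Real.log d ^ 8 = l ^ 2 := by
      rw [hl]
      ring
    rw [hl8] at hlt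
    have h2 : (1 : ℝ) ≤ (3 * 10 ^ 5 * l * thickness K o) ^ 2 := one_le_pow₀ hcon
    have h3 : (3 * 10 ^ 5 * l * thickness K o) ^ 2 = 9 * 10 ^ 10 * l ^ 2 * thickness K o ^ 2 := by
      ring
    rw [h3] at h2
    have h4 : 1 * (d : ℝ) ≤ 9 * 10 ^ 10 * l ^ 2 * thickness K o ^ 2 * d :=
      mul_le_mul_of_nonneg_right h2 hd1.le
    have h5 : 9 * 10 ^ 10 * l ^ 2 * (thickness K o ^ 2 * d) ≤ 9 * 10 ^ 10 * l ^ 2 * (72 * Q) :=
      mul_le_mul_of_nonneg_left h1 (by positivity)
    have h6 : 9 * 10 ^ 10 * l ^ 2 * thickness K o ^ 2 * d =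
      9 * 10 ^ 10 * l ^ 2 * (thickness K o ^ 2 * d) := by ring
    rw [h6] at h4
    have h7 : 9 * 10 ^ 10 * l ^ 2 * (72 * Q) = 0.648 * (10 ^ 13 * l ^ 2 * Q) := by ring
    have h8 : 0 ≤ 10 ^ 13 * l ^ 2 * Q := by
      have : (0 : ℝ) ≤ 72 * Q := le_trans (by positivity) h1
      have hQ0 : 0 ≤ Q := by linarith
      positivity
    linarith

end Pool.Agent.Results.MP_5e7226_co.NoFlatDirections
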