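import Pool.Agent.Lib.MP_5e7226_co.IN.Res4

set_option autoImplicit false
open scoped InnerProductSpace

namespace Pool.Agent.Results.MP_5e7226_co.ReflectionGroups

/-- `g` is a linear reflection: it fixes the hyperplane `⟪u, x⟫ = 0` pointwise and maps `a` to `-a`. -/
def IsReflection {d : ℕ} (g : EuclideanSpace ℝ (Fin d) → EuclideanSpace ℝ (Fin d)) : Prop :=
  ∃ a u : EuclideanSpace ℝ (Fin d), ⟪u, a⟫_ℝ = 2 ∧ ∀ x, g x = x - ⟪u, x⟫_ℝ • a

/-- `g` is a linear symmetry of `K` about the point `o`. -/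
def IsSymmetry {d : ℕ} (K : Set (EuclideanSpace ℝ (Fin d))) (o : EuclideanSpace ℝ (Fin d))
    (g : EuclideanSpace ℝ (Fin d) → EuclideanSpace ℝ (Fin d)) : Prop :=
  IsLinearMap ℝ g ∧ ∀ x, o + x ∈ K ↔ o + g x ∈ K

/-- No linear subspace except `0` and the whole space is invariant under all the linear symmetries of
`K` about `o`, where for `d ≠ 3` only those which are reflections are used. -/
def HasIrreducibleSymmetries {d : ℕ} (K : Set (EuclideanSpace ℝ (Fin d)))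
    (o : EuclideanSpace ℝ (Fin d)) : Prop :=
  ∀ p : Submodule ℝ (EuclideanSpace ℝ (Fin d)),
    (∀ g : EuclideanSpace ℝ (Fin d) → EuclideanSpace ℝ (Fin d), (d = 3 ∨ IsReflection g) →
      IsSymmetry K o g → ∀ x ∈ p, g x ∈ p) → p = ⊥ ∨ p = ⊤

/-- `s(K, o) ≤ n`: some `n` hyperplanes strictly separate every face of `K` from `o`. -/
def SeparatedBy {d : ℕ} (K : Set (EuclideanSpace ℝ (Fin d))) (o : EuclideanSpace ℝ (Fin d))
    (n : ℕ) : Prop :=
  ∃ w : Fin n → EuclideanSpace ℝ (Fin d), ∃ b : Fin n → ℝ,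
    ∀ u x₀ : EuclideanSpace ℝ (Fin d), u ≠ 0 → x₀ ∈ K →
      (∀ y ∈ K, ⟪u, y⟫_ℝ ≤ ⟪u, x₀⟫_ℝ) →
        ∃ i, ⟪w i, o⟫_ℝ < b i ∧ ∀ x ∈ K, ⟪u, x⟫_ℝ = ⟪u, x₀⟫_ℝ → b i < ⟪w i, x⟫_ℝ

/-- `K` is a cross-body centred at `o`. -/
def IsCrossBody {d : ℕ} (K : Set (EuclideanSpace ℝ (Fin d))) (o : EuclideanSpace ℝ (Fin d)) :
    Prop :=
  ∃ v : Fin d → EuclideanSpace ℝ (Fin d), ∃ t : Fin d → ℝ,
    LinearIndependent ℝ v ∧ (∀ i, 0 < t i) ∧
      K = convexHull ℝ (⋃ i, ({o + v i, o - t i • v i} : Set (EuclideanSpace ℝ (Fin d))))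

/-- `I(K) ≤ n`: some `n` points outside `K` illuminate every boundary point `q` of `K`: the
half-line from one of them through `q` meets the interior of `K` at a point beyond `q`. -/
def IlluminatedBy {d : ℕ} (K : Set (EuclideanSpace ℝ (Fin d))) (n : ℕ) : Prop :=
  ∃ p : Fin n → EuclideanSpace ℝ (Fin d), (∀ i, p i ∉ K) ∧
    ∀ q ∈ frontier K, ∃ i, ∃ s : ℝ, 0 < s ∧ q + s • (q - p i) ∈ interior K

/-- `K` is an affine `d`-cube. -/
def IsAffineCube {d : ℕ} (K : Set (EuclideanSpace ℝ (Fin d))) : Prop :=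
  ∃ p : EuclideanSpace ℝ (Fin d), ∃ v : Fin d → EuclideanSpace ℝ (Fin d),
    LinearIndependent ℝ v ∧ K = {x | ∃ c : Fin d → ℝ, (∀ i, |c i| ≤ 1) ∧ x = p + ∑ i, c i • v i}

/-- Let `d ≥ 3` and let `K` be a convex body in `E^d` with irreducible symmetries about the point `o` (for
`d ≥ 4`: mirror symmetries). Then both parts of the conjecture hold for `s(K, o)`, and both parts of
the illumination conjecture hold for `K`. -/
theorem result {d : ℕ} (hd : 3 ≤ d) (o : EuclideanSpace ℝ (Fin d)) (K : Set (EuclideanSpace ℝ (Fin d)))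
    (hconv : Convex ℝ K) (hcomp : IsCompact K) (hint : (interior K).Nonempty)
    (hirr : HasIrreducibleSymmetries K o) :
    SeparatedBy K o (2 ^ d) ∧ (¬ SeparatedBy K o (2 ^ d - 1) → IsCrossBody K o) ∧
      IlluminatedBy K (2 ^ d) ∧ (¬ IlluminatedBy K (2 ^ d - 1) → IsAffineCube K) :=
  Pool.Agent.Lib.MP_5e7226_co.IN.good_of_irreducible hd hconv hcomp hint hirr

end Pool.Agent.Results.MP_5e7226_co.ReflectionGroups
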